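import Pool.Agent.Helper767_RI.Norm
import Pool.Agent.R361.QF.HalfNe
import Pool.Agent.R361.QF.BernHalf
import Pool.Agent.H343R2.PV

/-!
# Half sums of a character of order `n` modulo `p`
-/

set_option autoImplicit false

open Finset NumberField

namespace Pool.Agent.Helper767_RI

section homs

variable {p n : ℕ} [hp : Fact p.Prime] {K : Type*} [Field K] [NumberField K]

/-- homomorphisms of `ℤ[ζ_n]` to `𝔽_p` -/
theorem exists_hom [NeZero n] [IsCyclotomicExtension {n} ℚ K] {ξ : 𝓞 K} (hξ : IsPrimitiveRoot ξ n) {w : ZMod p}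
    (hw : IsPrimitiveRoot w n) : ∃ φ : 𝓞 K →+* ZMod p, φ ξ = w := by
  have hK : IsPrimitiveRoot (ξ : K) n := hξ.map_of_injective (RingOfIntegers.coe_injective)
  have hgen : hK.integralPowerBasis.gen = ξ := by
    rw [IsPrimitiveRoot.integralPowerBasis_gen]
    rfl
  have hmin : minpoly ℤ ξ = Polynomial.cyclotomic n ℤ := by
    rw [Polynomial.cyclotomic_eq_minpoly hK (NeZero.pos n)]
    exact (minpoly.algebraMap_eq (RingOfIntegers.coe_injective) ξ).symm
  have hroot : Polynomial.aeval w (minpoly ℤ hK.integralPowerBasis.gen) = 0 := by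
    rw [hgen, hmin, Polynomial.aeval_def, Polynomial.eval₂_eq_eval_map, Polynomial.map_cyclotomic]
    exact hw.isRoot_cyclotomic (NeZero.pos n)
  refine ⟨(hK.integralPowerBasis.lift w hroot : 𝓞 K →ₐ[ℤ] ZMod p), ?_⟩
  have h := PowerBasis.lift_gen hK.integralPowerBasis w hroot
  rw [hgen] at h
  exact h

end homs

section chars

variable {p n : ℕ} [hp : Fact p.Prime] {R : Type*} [CommRing R] [IsDomain R] (χ : MulChar (ZMod p) R)

lemma chi_prim (hχ : orderOf χ = n) {g : (ZMod p)ˣ} (hg : ∀ u, u ∈ Subgroup.zpowers g) :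
    IsPrimitiveRoot (χ (g : ZMod p)) n := by
  refine ⟨?_, fun l hl => ?_⟩
  · rw [← MulChar.pow_apply_coe, ← hχ, pow_orderOf_eq_one, MulChar.one_apply_coe]
  · rw [← hχ]
    refine orderOf_dvd_of_pow_eq_one ?_
    ext u
    obtain ⟨t, ht⟩ := (mem_powers_iff_mem_zpowers.2 (hg u))
    have ht' : g ^ t = u := ht
    rw [← ht', MulChar.pow_apply_coe, Units.val_pow_eq_pow_val, map_pow, ← pow_mul, mul_comm, pow_mul, hl, one_pow,
      ← Units.val_pow_eq_pow_val, MulChar.one_apply_coe]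

lemma gen_order {g : (ZMod p)ˣ} (hg : ∀ u, u ∈ Subgroup.zpowers g) : orderOf g = p - 1 := by
  rw [orderOf_eq_card_of_forall_mem_zpowers hg, Nat.card_eq_fintype_card, ZMod.card_units_eq_totient,
    Nat.totient_prime hp.out]

lemma chi_neg_one {d : ℕ} (hχ : orderOf χ = n) (hd : n * d = p - 1) (hodd : d % 2 = 1) (hp2 : p % 2 = 1) :
    χ (-1) = -1 := by
  obtain ⟨g, hg⟩ := IsCyclic.exists_generator (α := (ZMod p)ˣ)
  have hprim := chi_prim χ hχ hg
  have ho := gen_order hg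
  have h1 : χ (-1) * χ (-1) = 1 := by
    rw [← map_mul, neg_mul_neg, one_mul, map_one]
  rcases mul_self_eq_one_iff.1 h1 with h2 | h2
  · exfalso
    have hp1 := hp.out.two_le
    have h3 : ((g : ZMod p)) ^ ((p - 1) / 2) = -1 := by
      have h4 : (g : ZMod p) ^ ((p - 1) / 2) * (g : ZMod p) ^ ((p - 1) / 2) = 1 := by
        rw [← pow_add, ← Units.val_pow_eq_pow_val]
        have : (p - 1) / 2 + (p - 1) / 2 = orderOf g := by rw [ho]; omega
        rw [this, pow_orderOf_eq_one, Units.val_one]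
      rcases mul_self_eq_one_iff.1 h4 with h5 | h5
      · exfalso
        have h6 : g ^ ((p - 1) / 2) = 1 := by
          ext
          rw [Units.val_pow_eq_pow_val, h5, Units.val_one]
        have h7 := Nat.le_of_dvd (by omega) (orderOf_dvd_of_pow_eq_one h6)
        omega
      · exact h5
    rw [← h3, map_pow] at h2
    obtain ⟨c, hc⟩ := hprim.dvd_of_pow_eq_one _ h2
    have h4 : n * d = n * (2 * c) := by
      have : n * (2 * c) = 2 * (n * c) := by ring
      omega
    have hn0 : 0 < n := by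
      rcases Nat.eq_zero_or_pos n with h | h
      · rw [h, zero_mul] at hd; omega
      · exact h
    have := Nat.eq_of_mul_eq_mul_left hn0 h4
    omega
  · exact h2

end chars

section prim

variable {p : ℕ} [hp : Fact p.Prime]

lemma isPrimitive_of_ne {χ : DirichletCharacter ℂ p} (h : χ ≠ 1) : χ.IsPrimitive := by
  rw [DirichletCharacter.isPrimitive_def]
  rcases (Nat.dvd_prime hp.out).1 (DirichletCharacter.conductor_dvd_level χ) with h1 | h1
  · exact absurd (DirichletCharacter.eq_one_iff_conductor_eq_one.2 h1) h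
  · exact h1

lemma odd_ne_one {χ : DirichletCharacter ℂ p} (h : χ (-1) = -1) : χ ≠ 1 := by
  rintro rfl
  rw [MulChar.one_apply (isUnit_one.neg)] at h
  norm_num at h

/-- the sum over all characters -/
theorem second_all (h : ℕ) (hh : h < p) :
    ∑ χ : DirichletCharacter ℂ p, ‖∑ a ∈ Icc 1 h, χ (a : ZMod p)‖ ^ 2 = ((p : ℝ) - 1) * h := by
  have : NeZero p := ⟨hp.out.ne_zero⟩
  have h1 : ∀ χ : DirichletCharacter ℂ p, ((‖∑ a ∈ Icc 1 h, χ (a : ZMod p)‖ ^ 2 : ℝ) : ℂ) =
      ∑ b ∈ Icc 1 h, ∑ a ∈ Icc 1 h, χ ((b : ZMod p)⁻¹) * χ (a : ZMod p) := by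
    intro χ
    have h2 : ((‖∑ a ∈ Icc 1 h, χ (a : ZMod p)‖ ^ 2 : ℝ) : ℂ) =
        (starRingEnd ℂ) (∑ b ∈ Icc 1 h, χ (b : ZMod p)) * ∑ a ∈ Icc 1 h, χ (a : ZMod p) := by
      rw [Complex.conj_mul']
      push_cast
      rfl
    rw [h2, map_sum, Finset.sum_mul_sum]
    refine sum_congr rfl fun b _ => sum_congr rfl fun a _ => ?_
    congr 1
    have h3 := MulChar.star_apply' χ (b : ZMod p)
    rw [MulChar.inv_apply'] at h3
    exact h3
  have h4 : ((∑ χ : DirichletCharacter ℂ p, ‖∑ a ∈ Icc 1 h, χ (a : ZMod p)‖ ^ 2 : ℝ) : ℂ) =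
      ((((p : ℝ) - 1) * h : ℝ) : ℂ) := by
    push_cast
    have h5 : ∀ χ : DirichletCharacter ℂ p, ((‖∑ a ∈ Icc 1 h, χ (a : ZMod p)‖ : ℝ) : ℂ) ^ 2 =
      ∑ b ∈ Icc 1 h, ∑ a ∈ Icc 1 h, χ ((b : ZMod p)⁻¹) * χ (a : ZMod p) := by
      intro χ
      rw [← h1 χ]
      push_cast
      rfl
    rw [sum_congr rfl fun χ _ => h5 χ, sum_comm]
    have h6 : ∀ b ∈ Icc 1 h, ∑ χ : DirichletCharacter ℂ p, ∑ a ∈ Icc 1 h, χ ((b : ZMod p)⁻¹) * χ (a : ZMod p) =
        (p : ℂ) - 1 := by
      intro b hb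
      rw [mem_Icc] at hb
      have hbu : IsUnit (b : ZMod p) := by
        rw [isUnit_iff_ne_zero]
        intro h0
        rw [ZMod.natCast_eq_zero_iff] at h0
        have := Nat.le_of_dvd (by omega) h0
        omega
      rw [sum_comm]
      simp_rw [DirichletCharacter.sum_char_inv_mul_char_eq ℂ hbu]
      rw [sum_eq_single b]
      · rw [if_pos rfl, Nat.totient_prime hp.out, Nat.cast_sub hp.out.one_lt.le, Nat.cast_one]
      · intro a ha hab
        rw [mem_Icc] at ha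
        rw [if_neg]
        intro h7
        apply hab
        have h8 := (ZMod.natCast_eq_natCast_iff' b a p).1 h7
        rw [Nat.mod_eq_of_lt (by omega), Nat.mod_eq_of_lt (by omega)] at h8
        exact h8.symm
      · intro h7
        exact absurd (mem_Icc.2 hb) h7
    rw [sum_congr rfl h6, sum_const, Nat.card_Icc, nsmul_eq_mul]
    simp
    ring
  exact_mod_cast h4

/-- the second moment of the half sums of the odd characters -/
theorem second_moment (hp2 : p % 2 = 1) (s : Finset (DirichletCharacter ℂ p)) (hs : ∀ χ ∈ s, χ (-1) = -1) :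
    ∑ χ ∈ s, ‖∑ a ∈ Icc 1 ((p - 1) / 2), χ (a : ZMod p)‖ ^ 2 ≤ (((p : ℝ) - 1) / 2) ^ 2 := by
  classical
  have hp1 := hp.out.two_le
  have h1 := second_all (p := p) ((p - 1) / 2) (by omega)
  have h1s : (1 : DirichletCharacter ℂ p) ∉ s := fun h => odd_ne_one (hs _ h) rfl
  have h2 : ∑ χ ∈ insert (1 : DirichletCharacter ℂ p) s, ‖∑ a ∈ Icc 1 ((p - 1) / 2), χ (a : ZMod p)‖ ^ 2 ≤
      ∑ χ : DirichletCharacter ℂ p, ‖∑ a ∈ Icc 1 ((p - 1) / 2), χ (a : ZMod p)‖ ^ 2 :=
    sum_le_sum_of_subset_of_nonneg (subset_univ _) fun _ _ _ => by positivity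
  rw [sum_insert h1s, h1] at h2
  have h3 : ∑ a ∈ Icc 1 ((p - 1) / 2), (1 : DirichletCharacter ℂ p) (a : ZMod p) = (((p - 1) / 2 : ℕ) : ℂ) := by
    have h4 : ∀ a ∈ Icc 1 ((p - 1) / 2), (1 : DirichletCharacter ℂ p) (a : ZMod p) = 1 := by
      intro a ha
      rw [mem_Icc] at ha
      refine MulChar.one_apply ?_
      rw [isUnit_iff_ne_zero]
      intro h0
      rw [ZMod.natCast_eq_zero_iff] at h0
      have := Nat.le_of_dvd (by omega) h0
      omega
    rw [sum_congr rfl h4, sum_const, Nat.card_Icc, nsmul_eq_mul, mul_one]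
    simp
  rw [h3, Complex.norm_natCast] at h2
  have h5 : (((p - 1) / 2 : ℕ) : ℝ) = ((p : ℝ) - 1) / 2 := by
    have h6 : p = 2 * ((p - 1) / 2) + 1 := by omega
    have h7 : (p : ℝ) = 2 * (((p - 1) / 2 : ℕ) : ℝ) + 1 := by exact_mod_cast h6
    linarith
  rw [h5] at h2
  linarith

end prim

end Pool.Agent.Helper767_RI
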