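import Pool.Agent.Helper767_RI.Cyc

/-!
# Irregular indices with a given `gcd (m - 1, p - 1)`
-/

set_option autoImplicit false

open Finset NumberField

namespace Pool.Agent.Helper767_RI

/-- the irregular indices `m` with `gcd (m - 1, p - 1) = d` -/
noncomputable def irr (p d : ℕ) : Finset ℕ :=
  (range (p - 2)).filter fun m => 2 ≤ m ∧ Even m ∧ Nat.gcd (m - 1) (p - 1) = d ∧ (p : ℤ) ∣ (bernoulli m).num

section

variable (p n d : ℕ) [hp : Fact p.Prime] [NeZero n] (K : Type) [Field K] [NumberField K]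
  [IsCyclotomicExtension {n} ℚ K]

/-- the half sum in `ℤ[ζ_n]` and its properties -/
theorem exists_S (hp2 : p % 2 = 1) (hd : n * d = p - 1) (hodd : d % 2 = 1) :
    ∃ (S : 𝓞 K) (φ : ℕ → (𝓞 K →+* ZMod p)) (X : (K →ₐ[ℚ] ℂ) → DirichletCharacter ℂ p),
      Set.InjOn φ (irr p d) ∧ (∀ m ∈ irr p d, φ m S = 0) ∧ Function.Injective X ∧ (∀ σ, X σ (-1) = -1) ∧
      ∀ σ : K →ₐ[ℚ] ℂ, σ (S : K) = ∑ a ∈ Icc 1 ((p - 1) / 2), X σ (a : ZMod p) := by
  classical
  have hp1 := hp.out.two_le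
  obtain ⟨g, hg⟩ := IsCyclic.exists_generator (α := (ZMod p)ˣ)
  have ho := gen_order hg
  have hζK : IsPrimitiveRoot (IsCyclotomicExtension.zeta n ℚ K) n := IsCyclotomicExtension.zeta_spec n ℚ K
  have hζ : IsPrimitiveRoot hζK.toInteger n := hζK.toInteger_isPrimitiveRoot
  obtain ⟨χ, hχ⟩ := MulChar.exists_mulChar_orderOf (ZMod p) (n := n) (R := 𝓞 K)
    (by rw [ZMod.card]; exact ⟨d, hd.symm⟩) hζ
  have hprim := chi_prim χ hχ hg
  -- powers of the generator
  have hkey : ∀ m ∈ irr p d, IsPrimitiveRoot ((g : ZMod p) ^ (m - 1)) n := by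
    intro m hm
    obtain ⟨-, h2, -, h4, -⟩ := (mem_filter.1 hm)
    have h5 : orderOf (g ^ (m - 1)) = n := by
      rw [orderOf_pow, ho, Nat.gcd_comm, h4, ← hd]
      refine Nat.mul_div_cancel _ ?_
      omega
    have h6 : IsPrimitiveRoot (g ^ (m - 1)) n := by
      rw [← h5]
      exact IsPrimitiveRoot.orderOf _
    have h7 := h6.map_of_injective (f := Units.coeHom (ZMod p)) Units.coeHom_injective
    rw [map_pow] at h7
    exact h7
  have hex : ∀ m : ℕ, ∃ φ : 𝓞 K →+* ZMod p, m ∈ irr p d → φ (χ (g : ZMod p)) = (g : ZMod p) ^ (m - 1) := by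
    intro m
    by_cases hm : m ∈ irr p d
    · obtain ⟨φ, hφ⟩ := exists_hom hprim (hkey m hm)
      exact ⟨φ, fun _ => hφ⟩
    · have hroot : ∃ w : ZMod p, IsPrimitiveRoot w n := by
        have h6 : orderOf (g ^ d) = n := by
          rw [orderOf_pow, ho, ← hd, Nat.gcd_mul_left_left]
          exact Nat.mul_div_cancel _ (by omega)
        have h7 : IsPrimitiveRoot (g ^ d) n := by
          rw [← h6]
          exact IsPrimitiveRoot.orderOf _
        exact ⟨_, h7.map_of_injective (f := Units.coeHom (ZMod p)) Units.coeHom_injective⟩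
      obtain ⟨w, hw⟩ := hroot
      obtain ⟨φ, hφ⟩ := exists_hom hprim hw
      exact ⟨φ, fun h => absurd h hm⟩
  choose φ hφ using hex
  have hchi : ∀ m ∈ irr p d, ∀ a : ZMod p, a ≠ 0 → φ m (χ a) = a ^ (m - 1) := by
    intro m hm a ha
    obtain ⟨u, rfl⟩ := isUnit_iff_ne_zero.mpr ha
    obtain ⟨t, ht⟩ := (mem_powers_iff_mem_zpowers.2 (hg u))
    have ht' : g ^ t = u := ht
    rw [← ht', Units.val_pow_eq_pow_val, map_pow, map_pow, hφ m hm, ← pow_mul, ← pow_mul, mul_comm]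
  refine ⟨∑ a ∈ Icc 1 ((p - 1) / 2), χ (a : ZMod p), φ,
    fun σ => χ.ringHomComp ((σ : K →+* ℂ).comp (algebraMap (𝓞 K) K)), ?_, ?_, ?_, ?_, ?_⟩
  · intro m hm m' hm' h
    have h1 := hφ m hm
    rw [h, hφ m' hm'] at h1
    obtain ⟨h2, h3, -⟩ := mem_filter.1 hm
    obtain ⟨h4, h5, -⟩ := mem_filter.1 hm'
    rw [mem_range] at h2 h4
    have h6 : g ^ (m' - 1) = g ^ (m - 1) := by
      ext
      rw [Units.val_pow_eq_pow_val, Units.val_pow_eq_pow_val, h1]
    have h7 := pow_injOn_Iio_orderOf (by rw [Set.mem_Iio, ho]; omega) (by rw [Set.mem_Iio, ho]; omega) h6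
    omega
  · intro m hm
    obtain ⟨h1, h2, h3, h4, h5⟩ := mem_filter.1 hm
    rw [mem_range] at h1
    rw [map_sum]
    have h6 := Pool.Agent.R361.QF.half_pow_sum p (by omega) (m - 1) (by omega) (by omega) (by
      rw [Nat.sub_add_cancel (by omega)]
      exact h5)
    rw [← h6]
    refine sum_congr rfl fun a ha => hchi m hm _ ?_
    rw [mem_Icc] at ha
    intro h0
    rw [ZMod.natCast_eq_zero_iff] at h0
    have := Nat.le_of_dvd (by omega) h0
    omega
  · intro σ τ h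
    have h1 := congrArg (fun X : MulChar (ZMod p) ℂ => X (g : ZMod p)) h
    simp only [MulChar.ringHomComp_apply, RingHom.comp_apply] at h1
    have h2 : IsPrimitiveRoot ((χ (g : ZMod p) : 𝓞 K) : K) n := hprim.map_of_injective RingOfIntegers.coe_injective
    refine PowerBasis.algHom_ext (IsPrimitiveRoot.powerBasis ℚ h2) ?_
    rw [IsPrimitiveRoot.powerBasis_gen]
    exact h1
  · intro σ
    rw [MulChar.ringHomComp_apply, chi_neg_one χ hχ hd hodd hp2]
    simp
  · intro σ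
    simp only [MulChar.ringHomComp_apply, RingHom.comp_apply]
    have h1 : ((∑ a ∈ Icc 1 ((p - 1) / 2), χ (a : ZMod p) : 𝓞 K) : K) =
        ∑ a ∈ Icc 1 ((p - 1) / 2), ((χ (a : ZMod p) : 𝓞 K) : K) := map_sum (algebraMap (𝓞 K) K) _ _
    rw [h1, map_sum]
    rfl

end

/-- the two bounds -/
theorem bounds (p n d : ℕ) [hp : Fact p.Prime] (hp2 : p % 2 = 1) (hd : n * d = p - 1) (hodd : d % 2 = 1) :
    (p : ℝ) ^ (2 * (irr p d).card) ≤ (p * (1 + Real.log p) ^ 2) ^ n.totient ∧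
    (n.totient : ℝ) ^ n.totient * (p : ℝ) ^ (2 * (irr p d).card) ≤ ((((p : ℝ) - 1) / 2) ^ 2) ^ n.totient := by
  classical
  have hp1 := hp.out.two_le
  have hn0 : n ≠ 0 := by
    rintro rfl
    rw [zero_mul] at hd
    omega
  have : NeZero n := ⟨hn0⟩
  have : NeZero ((n : ℕ) : ℚ) := ⟨by exact_mod_cast hn0⟩
  have : IsCyclotomicExtension {n} ℚ (CyclotomicField n ℚ) := CyclotomicField.isCyclotomicExtension n ℚ
  obtain ⟨S, φ, X, h1, h2, h3, h4, h5⟩ := exists_S p n d (CyclotomicField n ℚ) hp2 hd hodd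
  have hfr : Module.finrank ℚ (CyclotomicField n ℚ) = n.totient :=
    IsCyclotomicExtension.finrank (CyclotomicField n ℚ) (Polynomial.cyclotomic.irreducible_rat (Nat.pos_of_ne_zero hn0))
  have hS0 : S ≠ 0 := by
    rintro rfl
    have hcard : 0 < Fintype.card (CyclotomicField n ℚ →ₐ[ℚ] ℂ) := by
      rw [AlgHom.card]
      exact Module.finrank_pos
    obtain ⟨σ⟩ := Fintype.card_pos_iff.1 hcard
    refine Pool.Agent.R361.QF.half_ne hp2 (X σ) (h4 σ) ?_
    rw [← h5 σ]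
    simp
  refine ⟨?_, ?_⟩
  · have hB : ∀ σ : CyclotomicField n ℚ →ₐ[ℚ] ℂ, ‖σ (S : CyclotomicField n ℚ)‖ ≤ Real.sqrt p * (1 + Real.log p) := by
      intro σ
      rw [h5 σ]
      exact H343.PVaux.PV_plain p _ hp1 (X σ) (isPrimitive_of_ne (odd_ne_one (h4 σ)))
    have h6 := pow_le_pow (irr p d) φ h1 S hS0 h2 hB
    rw [hfr] at h6
    have h7 := pow_le_pow_left₀ (by positivity) h6 2
    have e1 : ((p : ℝ) ^ (irr p d).card) ^ 2 = (p : ℝ) ^ (2 * (irr p d).card) := by rw [← pow_mul, mul_comm]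
    have e2 : ((Real.sqrt p * (1 + Real.log p)) ^ n.totient) ^ 2 = (p * (1 + Real.log p) ^ 2) ^ n.totient := by
      have hp0 : (0 : ℝ) ≤ p := Nat.cast_nonneg p
      rw [← pow_mul, mul_comm n.totient 2, pow_mul, mul_pow, Real.sq_sqrt hp0]
    rw [e1, e2] at h7
    exact h7
  · have hQ : ∑ σ : CyclotomicField n ℚ →ₐ[ℚ] ℂ, ‖σ (S : CyclotomicField n ℚ)‖ ^ 2 ≤ (((p : ℝ) - 1) / 2) ^ 2 := by
      have h6 := second_moment (p := p) hp2 (univ.image X) (by
        intro χ hχ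
        obtain ⟨σ, -, rfl⟩ := mem_image.1 hχ
        exact h4 σ)
      rw [sum_image (fun a _ b _ h => h3 h)] at h6
      refine le_trans (le_of_eq (sum_congr rfl fun σ _ => ?_)) h6
      rw [h5 σ]
    have h6 := pow_le_mean (irr p d) φ h1 S hS0 h2 hQ
    rw [hfr] at h6
    exact h6

end Pool.Agent.Helper767_RI
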