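import Mathlib

/-!
# A power of `p` dividing the norm of an integer killed by several homomorphisms to `𝔽_p`
-/

set_option autoImplicit false

open Finset NumberField

namespace Pool.Agent.Helper767_RI

lemma amgm {ι : Type*} [Fintype ι] (z : ι → ℝ) (hz : ∀ i, 0 ≤ z i) (hN : 0 < Fintype.card ι) :
    ∏ i, z i ≤ ((∑ i, z i) / (Fintype.card ι : ℝ)) ^ Fintype.card ι := by
  have h := Real.geom_mean_le_arith_mean (Finset.univ : Finset ι) (fun _ => 1) z (fun _ _ => zero_le_one)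
    (by simpa using hN) (fun i _ => hz i)
  simp only [Real.rpow_one, Finset.sum_const, Finset.card_univ, nsmul_eq_mul, mul_one, one_mul] at h
  have hP : 0 ≤ ∏ i, z i := Finset.prod_nonneg fun i _ => hz i
  have h2 := pow_le_pow_left₀ (Real.rpow_nonneg hP _) h (Fintype.card ι)
  rwa [← Real.rpow_natCast, ← Real.rpow_mul hP, inv_mul_cancel₀ (by exact_mod_cast hN.ne'), Real.rpow_one] at h2

section

variable {p : ℕ} [hp : Fact p.Prime] {O : Type*} [CommRing O]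

lemma hom_surj (φ : O →+* ZMod p) : Function.Surjective φ := by
  intro y
  obtain ⟨m, rfl⟩ := ZMod.natCast_zmod_surjective y
  exact ⟨m, map_natCast φ m⟩

lemma hom_ext_ker {φ ψ : O →+* ZMod p} (h : RingHom.ker φ = RingHom.ker ψ) : φ = ψ := by
  ext x
  obtain ⟨m, hm⟩ := ZMod.natCast_zmod_surjective (φ x)
  have h1 : x - m ∈ RingHom.ker φ := by
    rw [RingHom.mem_ker, map_sub, map_natCast, hm, sub_self]
  rw [h, RingHom.mem_ker, map_sub, map_natCast, sub_eq_zero] at h1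
  rw [h1, hm]

lemma ker_max (φ : O →+* ZMod p) : (RingHom.ker φ).IsMaximal :=
  RingHom.ker_isMaximal_of_surjective φ (hom_surj φ)

end

section

variable {p : ℕ} [hp : Fact p.Prime] {K : Type*} [Field K] [NumberField K]

lemma absNorm_ker (φ : 𝓞 K →+* ZMod p) : Ideal.absNorm (RingHom.ker φ) = p := by
  rw [Ideal.absNorm_apply, Submodule.cardQuot_apply,
    Nat.card_congr (RingHom.quotientKerEquivOfSurjective (hom_surj φ)).toEquiv, Nat.card_zmod]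

theorem pow_dvd_norm {ι : Type*} (s : Finset ι) (φ : ι → (𝓞 K →+* ZMod p)) (hφ : Set.InjOn φ s) (S : 𝓞 K)
    (hS : ∀ i ∈ s, φ i S = 0) : p ^ s.card ∣ (Algebra.norm ℤ S).natAbs := by
  have h1 : ∏ i ∈ s, RingHom.ker (φ i) ∣ Ideal.span {S} := by
    refine Finset.prod_dvd_of_coprime ?_ ?_
    · intro i hi j hj hij
      rw [Function.onFun, Ideal.isCoprime_iff_sup_eq]
      refine Ideal.IsMaximal.coprime_of_ne (ker_max _) (ker_max _) fun h => ?_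
      exact hij (hφ hi hj (hom_ext_ker h))
    · intro i hi
      rw [Ideal.dvd_span_singleton, RingHom.mem_ker]
      exact hS i hi
  have h2 := map_dvd Ideal.absNorm h1
  rw [map_prod, Ideal.absNorm_span_singleton] at h2
  simp only [absNorm_ker, Finset.prod_const] at h2
  exact h2

theorem norm_eq_prod (S : 𝓞 K) : (((Algebra.norm ℤ S).natAbs : ℕ) : ℝ) = ∏ σ : K →ₐ[ℚ] ℂ, ‖σ (S : K)‖ := by
  have h1 := Algebra.norm_eq_prod_embeddings ℚ ℂ (S : K)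
  rw [← Algebra.coe_norm_int] at h1
  have h2 := congrArg norm h1
  rw [norm_prod] at h2
  rw [← h2, Nat.cast_natAbs]
  simp

theorem norm_pos_of_ne {S : 𝓞 K} (hS : S ≠ 0) : 0 < (Algebra.norm ℤ S).natAbs :=
  Int.natAbs_pos.2 (Algebra.norm_ne_zero_iff.2 hS)

/-- the bound with the maximum of the conjugates -/
theorem pow_le_pow {ι : Type*} (s : Finset ι) (φ : ι → (𝓞 K →+* ZMod p)) (hφ : Set.InjOn φ s) (S : 𝓞 K)
    (hS0 : S ≠ 0) (hS : ∀ i ∈ s, φ i S = 0) {B : ℝ} (hB : ∀ σ : K →ₐ[ℚ] ℂ, ‖σ (S : K)‖ ≤ B) :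
    (p : ℝ) ^ s.card ≤ B ^ Module.finrank ℚ K := by
  have h1 := Nat.le_of_dvd (norm_pos_of_ne hS0) (pow_dvd_norm s φ hφ S hS)
  have h2 : ((p ^ s.card : ℕ) : ℝ) ≤ ((Algebra.norm ℤ S).natAbs : ℕ) := by exact_mod_cast h1
  rw [norm_eq_prod] at h2
  push_cast at h2
  refine h2.trans ?_
  have h3 : ∏ σ : K →ₐ[ℚ] ℂ, ‖σ (S : K)‖ ≤ ∏ _σ : K →ₐ[ℚ] ℂ, B :=
    Finset.prod_le_prod (fun _ _ => norm_nonneg _) (fun σ _ => hB σ)
  rw [Finset.prod_const, Finset.card_univ, AlgHom.card] at h3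
  exact h3

/-- the bound with the mean square of the conjugates -/
theorem pow_le_mean {ι : Type*} (s : Finset ι) (φ : ι → (𝓞 K →+* ZMod p)) (hφ : Set.InjOn φ s) (S : 𝓞 K)
    (hS0 : S ≠ 0) (hS : ∀ i ∈ s, φ i S = 0) {Q : ℝ} (hQ : ∑ σ : K →ₐ[ℚ] ℂ, ‖σ (S : K)‖ ^ 2 ≤ Q) :
    (Module.finrank ℚ K : ℝ) ^ Module.finrank ℚ K * (p : ℝ) ^ (2 * s.card) ≤ Q ^ Module.finrank ℚ K := by
  have h1 := Nat.le_of_dvd (norm_pos_of_ne hS0) (pow_dvd_norm s φ hφ S hS)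
  have h2 : ((p ^ s.card : ℕ) : ℝ) ≤ ((Algebra.norm ℤ S).natAbs : ℕ) := by exact_mod_cast h1
  rw [norm_eq_prod] at h2
  push_cast at h2
  set N := Module.finrank ℚ K with hN
  have hN0 : 0 < N := Module.finrank_pos
  have hcard : Fintype.card (K →ₐ[ℚ] ℂ) = N := AlgHom.card ℚ K ℂ
  have h3 : ∏ σ : K →ₐ[ℚ] ℂ, ‖σ (S : K)‖ ^ 2 ≤ ((∑ σ : K →ₐ[ℚ] ℂ, ‖σ (S : K)‖ ^ 2) / N) ^ N := by
    have h4 := amgm (fun σ : K →ₐ[ℚ] ℂ => ‖σ (S : K)‖ ^ 2) (fun _ => by positivity) (by rw [hcard]; exact hN0)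
    rw [hcard] at h4
    exact h4
  have h5 : (p : ℝ) ^ (2 * s.card) ≤ (Q / N) ^ N := by
    have h6 : (p : ℝ) ^ (2 * s.card) = ((p : ℝ) ^ s.card) ^ 2 := by rw [← pow_mul, mul_comm]
    rw [h6]
    have h7 : ((p : ℝ) ^ s.card) ^ 2 ≤ (∏ σ : K →ₐ[ℚ] ℂ, ‖σ (S : K)‖) ^ 2 := pow_le_pow_left₀ (by positivity) h2 2
    rw [← Finset.prod_pow] at h7
    refine h7.trans (h3.trans (pow_le_pow_left₀ (by positivity) ?_ _))
    gcongr
  rw [div_pow, le_div_iff₀ (by positivity)] at h5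
  linarith

end

end Pool.Agent.Helper767_RI
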